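import Pool.Agent.Lib_helper58.Ground.Poly

/-! The polynomial Green functions of one minus the Laplacian of the unit sphere. -/

open MeasureTheory Filter Topology MvPolynomial

namespace Pool.Agent.Lib_helper58.Ground

open Pool.Agent.PenroseSph

/-- The zonal linear polynomial `(1 + x0 . y) / 2`. -/
noncomputable def ell (x0 : E3) : P3 := C (1 / 2) + ∑ i, C (x0 i / 2) * X i

theorem pderiv_ell (x0 : E3) (i : Fin 3) : pderiv i (ell x0) = C (x0 i / 2) := by
  unfold ell
  fin_cases i <;> simp [Fin.sum_univ_three, pderiv_X, Derivation.leibniz]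

theorem euler_ell (x0 : E3) : euler (ell x0) = ell x0 - C (1 / 2) := by
  rw [euler_apply]
  simp only [pderiv_ell]
  unfold ell
  rw [add_sub_cancel_left]
  exact Finset.sum_congr rfl fun i _ => mul_comm _ _

theorem euler_mul (p q : P3) : euler (p * q) = p * euler q + q * euler p := by
  simp only [euler_apply, Derivation.leibniz, smul_eq_mul, Finset.mul_sum]
  rw [← Finset.sum_add_distrib]
  exact Finset.sum_congr rfl fun i _ => by ring

theorem lap_mul (p q : P3) : lap (p * q)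
    = p * lap q + q * lap p + 2 * ∑ i, pderiv i p * pderiv i q := by
  simp only [lap_apply, Derivation.leibniz, smul_eq_mul, Finset.mul_sum, map_add]
  rw [← Finset.sum_add_distrib, ← Finset.sum_add_distrib]
  exact Finset.sum_congr rfl fun i _ => by ring

/-- The product rule for `T`. -/
theorem T_mul (p q : P3) : T (p * q) = p * T q + q * T p - p * q
    + 2 * (euler p * euler q) - 2 * ∑ i, pderiv i p * pderiv i q := by
  rw [T_apply, T_apply, T_apply, lap_mul, euler_mul, map_add, euler_mul, euler_mul]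
  ring

theorem lap_ell (x0 : E3) : lap (ell x0) = 0 := by
  simp [lap_apply, pderiv_ell]

theorem euler_C (c : ℝ) : euler (C c : P3) = 0 := by simp [euler_apply]

theorem T_ell (x0 : E3) : T (ell x0) = 3 * ell x0 - 1 := by
  rw [T_apply, euler_ell, map_sub, euler_ell, euler_C, lap_ell]
  have h : (C (1 / 2) : P3) + C (1 / 2) = 1 := by
    rw [← C_add]; norm_num
  linear_combination -h

theorem sum_pderiv_ell (x0 : E3) (p : P3) (k : ℕ) :
    ∑ i, pderiv i (ell x0 ^ k) * pderiv i p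
      = (k : P3) * ell x0 ^ (k - 1) * ∑ i, C (x0 i / 2) * pderiv i p := by
  rw [Finset.mul_sum]
  refine Finset.sum_congr rfl fun i _ => ?_
  rw [Derivation.leibniz_pow, pderiv_ell]
  simp only [smul_eq_mul, nsmul_eq_mul]
  ring

theorem euler_pow (p : P3) (k : ℕ) : euler (p ^ k) = (k : P3) * p ^ (k - 1) * euler p := by
  rw [euler_apply, euler_apply, Finset.mul_sum]
  refine Finset.sum_congr rfl fun i _ => ?_
  rw [Derivation.leibniz_pow]
  simp only [smul_eq_mul, nsmul_eq_mul]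
  ring

theorem T_ell_pow {x0 : E3} (hx : ‖x0‖ = 1) : ∀ k : ℕ,
    T (ell x0 ^ (k + 1)) = (((k : P3) + 1) ^ 2 + (k + 1) + 1) * ell x0 ^ (k + 1)
      - ((k : P3) + 1) ^ 2 * ell x0 ^ k := by
  have hC : ∑ i, C (x0 i / 2) * (C (x0 i / 2) : P3) = C (1 / 4) := by
    rw [← Finset.sum_congr rfl fun i _ => C_mul, ← map_sum]
    congr 1
    have : ∑ i, (x0 i) ^ 2 = 1 := by
      have := EuclideanSpace.norm_sq_eq x0
      rw [hx] at this
      simp only [Real.norm_eq_abs, sq_abs] at this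
      linarith
    calc ∑ i, x0 i / 2 * (x0 i / 2) = (∑ i, x0 i ^ 2) / 4 := by
          rw [Finset.sum_div]; exact Finset.sum_congr rfl fun i _ => by ring
      _ = 1 / 4 := by rw [this]
  have h4 : (4 : P3) * C (1 / 4) = 1 := by
    have : (4 : P3) = C 4 := (map_ofNat C 4).symm
    rw [this, ← C_mul]; norm_num
  have h2 : (2 : P3) * C (1 / 2) = 1 := by
    have : (2 : P3) = C 2 := (map_ofNat C 2).symm
    rw [this, ← C_mul]; norm_num
  have h22 : (C (1 / 2) : P3) * C (1 / 2) = C (1 / 4) := by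
    rw [← C_mul]; norm_num
  intro k
  induction k with
  | zero => simp only [zero_add, pow_one, T_ell, pow_zero, Nat.cast_zero]; ring
  | succ k ih =>
    rw [pow_succ (ell x0) (k + 1), T_mul, ih, T_ell, sum_pderiv_ell]
    simp only [pderiv_ell]
    rw [hC, euler_pow, euler_ell]
    simp only [add_tsub_cancel_right, Nat.cast_add, Nat.cast_one]
    have e1 : ell x0 ^ (k + 1) = ell x0 ^ k * ell x0 := pow_succ _ _
    rw [e1]
    linear_combination (2 * ((k : P3) + 1) * ell x0 ^ k) * h22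
      - (2 * ((k : P3) + 1) * ell x0 ^ k * ell x0) * h2

/-- The coefficients of the Green function. -/
noncomputable def cf : ℕ → ℝ
  | 0 => 1
  | k + 1 => cf k * ((k : ℝ) ^ 2 + k + 1) / ((k : ℝ) + 1) ^ 2

theorem cf_succ (k : ℕ) : cf (k + 1) * ((k : ℝ) + 1) ^ 2 = cf k * ((k : ℝ) ^ 2 + k + 1) := by
  rw [cf]
  have : ((k : ℝ) + 1) ^ 2 ≠ 0 := by positivity
  field_simp

theorem cf_pos : ∀ k, 0 < cf k
  | 0 => by rw [cf]; norm_num
  | k + 1 => by
    rw [cf]
    have := cf_pos k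
    positivity

/-- The normalised coefficients `(k + 1) * cf (k + 1)`. -/
theorem dk_le (k : ℕ) : cf (k + 1) * ((k : ℝ) + 1) ≤ 4 * (((k : ℝ) + 1) / (k + 2)) ^ 2 := by
  induction k with
  | zero => simp [cf]; norm_num
  | succ k ih =>
    have h1 := cf_succ (k + 1)
    push_cast at h1 ⊢
    have hk : (0 : ℝ) ≤ k := Nat.cast_nonneg k
    have h2 : cf (k + 1 + 1) * ((k : ℝ) + 1 + 1)
        = cf (k + 1) * ((k : ℝ) + 1) * ((((k : ℝ) + 1) ^ 2 + (k + 1) + 1) / ((k + 1) * (k + 2))) := by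
      have h3 : ((k : ℝ) + 1 + 1) ≠ 0 := by positivity
      field_simp
      have h4 : cf (k + 1 + 1) * ((k : ℝ) + 1 + 1) ^ 2
        = cf (k + 1) * (((k : ℝ) + 1) ^ 2 + (k + 1) + 1) := h1
      linarith
    rw [h2]
    refine (mul_le_mul_of_nonneg_right ih (by positivity)).trans ?_
    rw [div_pow, div_pow, ← mul_div_assoc, ← mul_div_assoc, ← mul_div_assoc, div_mul_eq_mul_div,
      div_div, div_le_div_iff₀ (by positivity) (by positivity)]
    have h5 : (0 : ℝ) ≤ k ^ 2 := by positivity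
    have h6 : (0 : ℝ) ≤ k ^ 3 := by positivity
    have h7 : (0 : ℝ) ≤ k ^ 4 := by positivity
    have h8 : (0 : ℝ) ≤ k ^ 5 := by positivity
    have h9 : (0 : ℝ) ≤ k ^ 6 := by positivity
    nlinarith [h5, h6, h7, h8, h9, hk]

theorem one_le_dk (k : ℕ) : 1 ≤ cf (k + 1) * ((k : ℝ) + 1) := by
  induction k with
  | zero => simp [cf]
  | succ k ih =>
    have h1 := cf_succ (k + 1)
    push_cast at h1 ⊢
    have hk : (0 : ℝ) ≤ k := Nat.cast_nonneg k
    have h2 : cf (k + 1 + 1) * ((k : ℝ) + 1 + 1)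
        = cf (k + 1) * ((k : ℝ) + 1) * ((((k : ℝ) + 1) ^ 2 + (k + 1) + 1) / ((k + 1) * (k + 2))) := by
      have h3 : ((k : ℝ) + 1 + 1) ≠ 0 := by positivity
      field_simp
      have h4 : cf (k + 1 + 1) * ((k : ℝ) + 1 + 1) ^ 2
        = cf (k + 1) * (((k : ℝ) + 1) ^ 2 + (k + 1) + 1) := h1
      linarith
    rw [h2]
    have h5 : 1 ≤ (((k : ℝ) + 1) ^ 2 + (k + 1) + 1) / ((k + 1) * (k + 2)) := by
      rw [le_div_iff₀ (by positivity)]; nlinarith
    nlinarith

theorem dk_le_four (k : ℕ) : cf (k + 1) * ((k : ℝ) + 1) ≤ 4 := by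
  refine (dk_le k).trans ?_
  have h1 : ((k : ℝ) + 1) / (k + 2) ≤ 1 := by
    rw [div_le_one (by positivity)]; linarith
  have h0 : 0 ≤ ((k : ℝ) + 1) / (k + 2) := by positivity
  nlinarith

theorem cf_le (k : ℕ) : cf k ≤ 8 / ((k : ℝ) + 1) := by
  rcases k with _ | k
  · simp [cf]
  · have h1 := dk_le_four k
    push_cast
    rw [le_div_iff₀ (by positivity)]
    have h2 : (k : ℝ) + 1 + 1 ≤ 2 * (k + 1) := by
      have : (0 : ℝ) ≤ k := Nat.cast_nonneg k
      linarith
    have := cf_pos (k + 1)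
    nlinarith

/-- The Green polynomial. -/
noncomputable def gf (x0 : E3) (n : ℕ) : P3 := ∑ k ∈ Finset.range (n + 1), C (cf k) * ell x0 ^ k

theorem T_C_mul (c : ℝ) (p : P3) : T (C c * p) = C c * T p := by
  rw [C_mul', C_mul', map_smul]

theorem T_gf {x0 : E3} (hx : ‖x0‖ = 1) (n : ℕ) :
    T (gf x0 n) = C (cf (n + 1) * ((n : ℝ) + 1) ^ 2) * ell x0 ^ n := by
  induction n with
  | zero =>
    have : cf 1 = 1 := by simp [cf]
    simp [gf, T_C_mul, cf, this]
  | succ n ih =>
    have h1 : gf x0 (n + 1) = gf x0 n + C (cf (n + 1)) * ell x0 ^ (n + 1) := by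
      rw [gf, Finset.sum_range_succ]; rfl
    rw [h1, map_add, ih, T_C_mul, T_ell_pow hx]
    have h2 := cf_succ (n + 1)
    push_cast at h2 ⊢
    rw [h2]
    have h3 : ((n : P3)) = C (n : ℝ) := by simp
    rw [h3]
    simp only [C_mul, C_add, C_pow, C_1]
    ring

end Pool.Agent.Lib_helper58.Ground
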