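import Pool.Agent.Lib_helper58.Ground.Rep

/-! Approximate ground states: for a positive continuous weight `w` on the unit sphere there are
positive numbers `R` and positive polynomials `q` with `R (1 - Laplacian) q` uniformly close to
`w q`, relative to `q`. -/

open MeasureTheory Filter Topology MvPolynomial

namespace Pool.Agent.Lib_helper58.Ground

open Pool.Agent.PenroseSph

/-- The weighted mean. -/
noncomputable def mu (w f : P3) : ℝ := ∫ ω : S2, ev w ω * ev f ω ∂sph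

theorem mu_smul_sub (w f g : P3) (M : ℝ) : mu w (M • f - g) = M * mu w f - mu w g := by
  unfold mu
  have h : ∀ ω : S2, ev w ω * ev (M • f - g) ω = M * (ev w ω * ev f ω) - ev w ω * ev g ω := by
    intro ω; simp only [ev_sub, ev_smul]; ring
  simp only [h]
  rw [integral_sub, integral_const_mul]
  · exact integrable_of_continuous (continuous_const.mul ((continuous_evS _).mul (continuous_evS _)))
  · exact integrable_of_continuous ((continuous_evS _).mul (continuous_evS _))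

theorem mu_mono {w f g : P3} (hw : ∀ ω : S2, 0 < ev w ω) (h : ∀ ω : S2, ev f ω ≤ ev g ω) :
    mu w f ≤ mu w g :=
  integral_mono (integrable_of_continuous ((continuous_evS _).mul (continuous_evS _)))
    (integrable_of_continuous ((continuous_evS _).mul (continuous_evS _)))
    fun ω => mul_le_mul_of_nonneg_left (h ω) (hw ω).le

theorem mu_nonneg {w f : P3} (hw : ∀ ω : S2, 0 < ev w ω) (h : ∀ ω : S2, 0 ≤ ev f ω) :
    0 ≤ mu w f := integral_nonneg fun ω => mul_nonneg (hw ω).le (h ω)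

theorem mu_pos {w f : P3} (hw : ∀ ω : S2, 0 < ev w ω) (h : ∀ ω : S2, 0 < ev f ω) :
    0 < mu w f := by
  have hc : Continuous fun ω : S2 => ev w ω * ev f ω := (continuous_evS _).mul (continuous_evS _)
  obtain ⟨ω₀⟩ : Nonempty S2 := ⟨⟨EuclideanSpace.single 0 1, by simp⟩⟩
  refine (integral_pos_iff_support_of_nonneg (fun ω => (mul_pos (hw ω) (h ω)).le)
    (integrable_of_continuous hc)).2 ?_
  have : Function.support (fun ω : S2 => ev w ω * ev f ω) = Set.univ := by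
    ext ω
    simp only [Function.mem_support, Set.mem_univ, iff_true]
    exact (mul_pos (hw ω) (h ω)).ne'
  rw [this]
  exact isOpen_univ.measure_pos _ ⟨ω₀, trivial⟩

/-- First lower bound. -/
theorem lower1 {w f u : P3} (hw : ∀ ω : S2, 0 < ev w ω) (hf : ∀ ω : S2, 0 ≤ ev f ω)
    (hu : T u = w * f) (ω₀ : S2) : (16 * Real.pi)⁻¹ * mu w f ≤ ev u ω₀ := by
  have h := lower_bound (u := u) (fun ω => by
    rw [hu, ev_mul]; exact mul_nonneg (hw ω).le (hf ω)) ω₀
  simp only [hu, ev_mul] at h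
  exact h

/-- Second lower bound. -/
theorem lower2 {w f g h : P3} (hw : ∀ ω : S2, 0 < ev w ω) (hf : ∀ ω : S2, 0 ≤ ev f ω)
    (hg : T g = w * f) (hh : T h = w * g) (ω₀ : S2) :
    (16 * Real.pi)⁻¹ ^ 2 * mu w 1 * mu w f ≤ ev h ω₀ := by
  set c := (16 * Real.pi)⁻¹ with hc
  have hc0 : 0 < c := by rw [hc]; have := Real.pi_pos; positivity
  have h1 := lower1 hw hf hg
  have hf0 : 0 ≤ mu w f := mu_nonneg hw hf
  have h2 : ∀ ω : S2, 0 ≤ ev g ω := fun ω => (mul_nonneg hc0.le hf0).trans (h1 ω)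
  have h3 := lower1 hw h2 hh ω₀
  have h4 : mu w (C (c * mu w f)) ≤ mu w g := mu_mono hw fun ω => by rw [ev_C]; exact h1 ω
  have h5 : mu w (C (c * mu w f)) = (c * mu w f) * mu w 1 := by
    unfold mu
    simp only [ev_C, ev_one, mul_one]
    rw [integral_mul_const]
    ring
  rw [h5] at h4
  calc c ^ 2 * mu w 1 * mu w f = c * ((c * mu w f) * mu w 1) := by ring
    _ ≤ c * mu w g := mul_le_mul_of_nonneg_left h4 hc0.le
    _ ≤ ev h ω₀ := h3

/-- The upper bound after two steps. -/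
theorem exists_upper2 {w : P3} (hw : ∀ ω : S2, 0 < ev w ω) :
    ∃ A : ℝ, 0 < A ∧ ∀ f g h : P3, (∀ ω : S2, 0 ≤ ev f ω) → T g = w * f → T h = w * g →
      ∀ ω₀ : S2, ev h ω₀ ≤ A * mu w f := by
  obtain ⟨K, hK0, hK⟩ := exists_gf_bound
  obtain ⟨W, hW⟩ : ∃ W : ℝ, ∀ ω : S2, ev w ω ≤ W := by
    obtain ⟨W, hW⟩ := (isCompact_univ (X := S2)).bddAbove_image (continuous_evS w).continuousOn
    exact ⟨W, fun ω => hW ⟨ω, trivial, rfl⟩⟩
  obtain ⟨ω₁⟩ : Nonempty S2 := ⟨⟨EuclideanSpace.single 0 1, by simp⟩⟩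
  have hW0 : 0 < W := (hw ω₁).trans_le (hW ω₁)
  refine ⟨K * W, by positivity, fun f g h hf hg hh ω₀ => ?_⟩
  have hx : ‖(ω₀ : E3)‖ = 1 := norm_eq_of_mem_sphere ω₀
  refine le_of_tendsto' (tendsto_rep hx h) fun n => ?_
  obtain ⟨v, hv⟩ := T_surjective (gf ω₀ n * w)
  have h1 : ∫ ω : S2, ev (gf ω₀ n) ω * ev (T h) ω ∂sph = ∫ ω : S2, ev v ω * (ev w ω * ev f ω) ∂sph := by
    have h2 : ∀ ω : S2, ev (gf ω₀ n) ω * ev (T h) ω = ev (T v) ω * ev g ω := by
      intro ω; rw [hh, hv, ev_mul, ev_mul]; ring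
    have h3 : ∀ ω : S2, ev v ω * (ev w ω * ev f ω) = ev v ω * ev (T g) ω := by
      intro ω; rw [hg, ev_mul]
    simp only [h2, h3]
    exact (green v g).symm
  have hvb : ∀ ω : S2, ev v ω ≤ K * W := by
    intro ω
    have h4 := abs_le_of_gf hK v ω
    have h5 : ∫ ω : S2, ev (T v) ω ^ 2 ∂sph ≤ W ^ 2 * K := by
      have h6 : ∫ ω : S2, ev (T v) ω ^ 2 ∂sph ≤ ∫ ω : S2, W ^ 2 * ev (gf ω₀ n) ω ^ 2 ∂sph := by
        refine integral_mono (integrable_of_continuous ((continuous_evS _).pow 2))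
          (integrable_of_continuous (continuous_const.mul ((continuous_evS _).pow 2))) fun ω => ?_
        simp only [hv, ev_mul, mul_pow]
        rw [mul_comm]
        exact mul_le_mul_of_nonneg_right (pow_le_pow_left₀ (hw ω).le (hW ω) 2) (by positivity)
      rw [integral_const_mul] at h6
      exact h6.trans (mul_le_mul_of_nonneg_left (hK ω₀ n) (by positivity))
    have h7 : ev v ω ^ 2 ≤ (K * W) ^ 2 := by
      refine h4.trans ((mul_le_mul_of_nonneg_left h5 hK0.le).trans (le_of_eq (by ring)))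
    exact (abs_le_of_sq_le_sq' h7 (by positivity)).2
  rw [h1]
  have h8 : ∫ ω : S2, ev v ω * (ev w ω * ev f ω) ∂sph ≤ K * W * mu w f := by
    unfold mu
    rw [← integral_const_mul]
    refine integral_mono (integrable_of_continuous ((continuous_evS _).mul
      ((continuous_evS _).mul (continuous_evS _)))) (integrable_of_continuous (continuous_const.mul
      ((continuous_evS _).mul (continuous_evS _)))) fun ω => ?_
    exact mul_le_mul_of_nonneg_right (hvb ω) (mul_nonneg (hw ω).le (hf ω))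
  have hd1 : 1 ≤ dn n := one_le_dk n
  have hpi := Real.pi_gt_three
  have h9 : (4 * Real.pi * dn n)⁻¹ ≤ 1 := inv_le_one_of_one_le₀ (by nlinarith)
  have h10 : 0 ≤ (4 * Real.pi * dn n)⁻¹ := by positivity
  have h11 : 0 ≤ K * W * mu w f := mul_nonneg (by positivity) (mu_nonneg hw hf)
  calc (4 * Real.pi * dn n)⁻¹ * ∫ ω : S2, ev v ω * (ev w ω * ev f ω) ∂sph
      ≤ (4 * Real.pi * dn n)⁻¹ * (K * W * mu w f) := mul_le_mul_of_nonneg_left h8 h10
    _ ≤ 1 * (K * W * mu w f) := mul_le_mul_of_nonneg_right h9 h11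
    _ = K * W * mu w f := one_mul _

/-- The iterates. -/
noncomputable def it (w : P3) : ℕ → P3
  | 0 => 1
  | n + 1 => (T_surjective (w * it w n)).choose

theorem T_it (w : P3) (n : ℕ) : T (it w (n + 1)) = w * it w n := by
  rw [it]; exact (T_surjective (w * it w n)).choose_spec

theorem it_pos {w : P3} (hw : ∀ ω : S2, 0 < ev w ω) : ∀ (n : ℕ) (ω : S2), 0 < ev (it w n) ω
  | 0, ω => by simp [it]
  | n + 1, ω => by
    have h1 := lower1 hw (fun ω => (it_pos hw n ω).le) (T_it w n) ω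
    have h2 := mu_pos hw (it_pos hw n)
    have := Real.pi_pos
    exact lt_of_lt_of_le (by positivity) h1

/-- The contraction step. -/
theorem contraction {w : P3} (hw : ∀ ω : S2, 0 < ev w ω) : ∃ δ : ℝ, 0 < δ ∧ δ < 1 ∧
    ∀ (n : ℕ) (m M : ℝ), (∀ ω : S2, m * ev (it w n) ω ≤ ev (it w (n + 1)) ω) →
      (∀ ω : S2, ev (it w (n + 1)) ω ≤ M * ev (it w n) ω) →
      ∃ m' M' : ℝ, m ≤ m' ∧ m' ≤ M' ∧ M' - m' ≤ (1 - δ) * (M - m) ∧
        (∀ ω : S2, m' * ev (it w (n + 2)) ω ≤ ev (it w (n + 3)) ω) ∧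
        (∀ ω : S2, ev (it w (n + 3)) ω ≤ M' * ev (it w (n + 2)) ω) := by
  obtain ⟨A, hA0, hA⟩ := exists_upper2 hw
  set c2 := (16 * Real.pi)⁻¹ ^ 2 * mu w 1 with hc2
  have h1 : 0 < mu w 1 := mu_pos hw fun ω => by simp
  have hc20 : 0 < c2 := by
    rw [hc2]; have := Real.pi_pos; positivity
  set δ := min (c2 / A) (1 / 2) with hδ
  have hδ0 : 0 < δ := lt_min (by positivity) (by norm_num)
  refine ⟨δ, hδ0, (min_le_right _ _).trans_lt (by norm_num), fun n m M hm hM => ?_⟩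
  obtain ⟨ω₁⟩ : Nonempty S2 := ⟨⟨EuclideanSpace.single 0 1, by simp⟩⟩
  have hmu : 0 < mu w (it w n) := mu_pos hw (it_pos hw n)
  set r := mu w (it w (n + 1)) / mu w (it w n) with hr
  have hr1 : mu w (it w (n + 1)) = r * mu w (it w n) := by rw [hr]; field_simp
  -- the upper side
  have hup := lower2 hw (f := M • it w n - it w (n + 1)) (g := M • it w (n + 1) - it w (n + 2))
    (h := M • it w (n + 2) - it w (n + 3)) (fun ω => by
      rw [ev_sub, ev_smul]; linarith [hM ω])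
    (by rw [map_sub, map_smul, T_it, T_it, mul_sub, mul_smul_comm])
    (by rw [map_sub, map_smul, T_it, T_it, mul_sub, mul_smul_comm])
  have hlo := lower2 hw (f := (-m) • it w n - (-1 : ℝ) • it w (n + 1))
    (g := (-m) • it w (n + 1) - (-1 : ℝ) • it w (n + 2))
    (h := (-m) • it w (n + 2) - (-1 : ℝ) • it w (n + 3)) (fun ω => by
      rw [ev_sub, ev_smul, ev_smul]; linarith [hm ω])
    (by rw [map_sub, map_smul, map_smul, T_it, T_it, mul_sub, mul_smul_comm, mul_smul_comm])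
    (by rw [map_sub, map_smul, map_smul, T_it, T_it, mul_sub, mul_smul_comm, mul_smul_comm])
  have hneg : mu w ((-1 : ℝ) • it w (n + 1)) = - mu w (it w (n + 1)) := by
    have := mu_smul_sub w (it w (n + 1)) 0 (-1)
    rw [sub_zero] at this
    rw [this]
    simp [mu]
  rw [mu_smul_sub, hr1] at hup
  rw [mu_smul_sub, hneg, hr1] at hlo
  have hMr : r * mu w (it w n) ≤ M * mu w (it w n) := by
    rw [← hr1]
    have := mu_nonneg hw (f := M • it w n - it w (n + 1)) (fun ω => by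
      rw [ev_sub, ev_smul]; linarith [hM ω])
    rw [mu_smul_sub] at this
    linarith
  have hmr : m * mu w (it w n) ≤ r * mu w (it w n) := by
    rw [← hr1]
    have := mu_nonneg hw (f := (-m) • it w n - (-1 : ℝ) • it w (n + 1)) (fun ω => by
      rw [ev_sub, ev_smul, ev_smul]; linarith [hm ω])
    rw [mu_smul_sub, hneg] at this
    linarith
  have hMr' : r ≤ M := le_of_mul_le_mul_right hMr hmu
  have hmr' : m ≤ r := le_of_mul_le_mul_right hmr hmu
  have hA2 : ∀ ω : S2, ev (it w (n + 2)) ω ≤ A * mu w (it w n) :=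
    hA _ _ _ (fun ω => (it_pos hw n ω).le) (T_it w n) (T_it w (n + 1))
  have hδA : δ * A ≤ c2 := by
    have : δ ≤ c2 / A := min_le_left _ _
    rwa [le_div_iff₀ hA0] at this
  have key : ∀ (s : ℝ), 0 ≤ s → ∀ ω : S2, δ * s * ev (it w (n + 2)) ω
      ≤ c2 * (s * mu w (it w n)) := by
    intro s hs ω
    calc δ * s * ev (it w (n + 2)) ω ≤ δ * s * (A * mu w (it w n)) :=
          mul_le_mul_of_nonneg_left (hA2 ω) (by positivity)
      _ = (δ * A) * (s * mu w (it w n)) := by ring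
      _ ≤ c2 * (s * mu w (it w n)) := mul_le_mul_of_nonneg_right hδA (by positivity)
  have hm' : ∀ ω : S2, (m + δ * (r - m)) * ev (it w (n + 2)) ω ≤ ev (it w (n + 3)) ω := by
    intro ω
    have e1 := hlo ω
    rw [ev_sub, ev_smul, ev_smul] at e1
    have e2 := key (r - m) (by linarith) ω
    have e3 : c2 * ((r - m) * mu w (it w n)) = c2 * (-m * mu w (it w n) - -(r * mu w (it w n))) := by
      ring
    rw [e3] at e2
    linarith
  have hM' : ∀ ω : S2, ev (it w (n + 3)) ω ≤ (M - δ * (M - r)) * ev (it w (n + 2)) ω := by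
    intro ω
    have e1 := hup ω
    rw [ev_sub, ev_smul] at e1
    have e2 := key (M - r) (by linarith) ω
    have e3 : c2 * ((M - r) * mu w (it w n)) = c2 * (M * mu w (it w n) - r * mu w (it w n)) := by
      ring
    rw [e3] at e2
    linarith
  refine ⟨m + δ * (r - m), M - δ * (M - r), ?_, ?_, ?_, hm', hM'⟩
  · have : 0 ≤ δ * (r - m) := mul_nonneg hδ0.le (by linarith)
    linarith
  · exact le_of_mul_le_mul_right ((hm' ω₁).trans (hM' ω₁)) (it_pos hw _ ω₁)
  · apply le_of_eq; ring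

/-- Approximate eigenfunctions for a polynomial weight. -/
theorem exists_ratio {w : P3} (hw : ∀ ω : S2, 0 < ev w ω) : ∃ m₀ : ℝ, 0 < m₀ ∧
    ∀ ε : ℝ, 0 < ε → ∃ (n : ℕ) (R : ℝ), m₀ ≤ R ∧ ∀ ω : S2,
      m₀ * ev (it w n) ω ≤ ev (it w (n + 1)) ω ∧
      |R * ev (it w n) ω - ev (it w (n + 1)) ω| ≤ ε * ev (it w n) ω := by
  obtain ⟨δ, hδ0, hδ1, hδ⟩ := contraction hw
  obtain ⟨m₀, hm₀, hm₀'⟩ : ∃ m₀ : ℝ, 0 < m₀ ∧ ∀ ω : S2, m₀ * ev (it w 0) ω ≤ ev (it w 1) ω := by
    refine ⟨(16 * Real.pi)⁻¹ * mu w (it w 0), ?_, fun ω => ?_⟩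
    · have := Real.pi_pos
      have := mu_pos hw (it_pos hw 0)
      positivity
    · have := lower1 hw (fun ω => (it_pos hw 0 ω).le) (T_it w 0) ω
      have e : ev (it w 0) ω = 1 := by simp [it]
      rw [e, mul_one]
      exact this
  obtain ⟨M₀, hM₀⟩ : ∃ M₀ : ℝ, ∀ ω : S2, ev (it w 1) ω ≤ M₀ * ev (it w 0) ω := by
    obtain ⟨W, hW⟩ := (isCompact_univ (X := S2)).bddAbove_image (continuous_evS (it w 1)).continuousOn
    refine ⟨W, fun ω => ?_⟩
    have e : ev (it w 0) ω = 1 := by simp [it]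
    rw [e, mul_one]
    exact hW ⟨ω, trivial, rfl⟩
  obtain ⟨ω₁⟩ : Nonempty S2 := ⟨⟨EuclideanSpace.single 0 1, by simp⟩⟩
  have hmM : m₀ ≤ M₀ :=
    le_of_mul_le_mul_right ((hm₀' ω₁).trans (hM₀ ω₁)) (it_pos hw _ ω₁)
  have iter : ∀ k : ℕ, ∃ m M : ℝ, m₀ ≤ m ∧ m ≤ M ∧ M - m ≤ (1 - δ) ^ k * (M₀ - m₀) ∧
      (∀ ω : S2, m * ev (it w (2 * k)) ω ≤ ev (it w (2 * k + 1)) ω) ∧
      (∀ ω : S2, ev (it w (2 * k + 1)) ω ≤ M * ev (it w (2 * k)) ω) := by
    intro k
    induction k with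
    | zero => exact ⟨m₀, M₀, le_rfl, hmM, by simp, hm₀', hM₀⟩
    | succ k ih =>
      obtain ⟨m, M, h1, _, h3, h4, h5⟩ := ih
      obtain ⟨m', M', g1, g2, g3, g4, g5⟩ := hδ (2 * k) m M h4 h5
      refine ⟨m', M', h1.trans g1, g2, ?_, g4, g5⟩
      refine g3.trans ?_
      rw [pow_succ, mul_comm ((1 - δ) ^ k), mul_assoc]
      exact mul_le_mul_of_nonneg_left h3 (by linarith)
  refine ⟨m₀, hm₀, fun ε hε => ?_⟩
  have hlim : Tendsto (fun k : ℕ => (1 - δ) ^ k * (M₀ - m₀)) atTop (𝓝 (0 * (M₀ - m₀))) :=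
    (tendsto_pow_atTop_nhds_zero_of_lt_one (by linarith) (by linarith)).mul_const _
  rw [zero_mul] at hlim
  obtain ⟨k, hk⟩ := (hlim.eventually (gt_mem_nhds hε)).exists
  obtain ⟨m, M, h1, h2, h3, h4, h5⟩ := iter k
  refine ⟨2 * k, m, h1, fun ω => ⟨?_, ?_⟩⟩
  · exact (mul_le_mul_of_nonneg_right h1 (it_pos hw _ ω).le).trans (h4 ω)
  · have hp := it_pos hw (2 * k) ω
    rw [abs_le]
    constructor
    · have : (M - m) * ev (it w (2 * k)) ω ≤ ε * ev (it w (2 * k)) ω :=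
        mul_le_mul_of_nonneg_right (h3.trans hk.le) hp.le
      linarith [h5 ω]
    · have := mul_pos hε hp
      linarith [h4 ω]

/-- Approximate ground states for a positive continuous weight. -/
theorem exists_ground {w : S2 → ℝ} (hw : Continuous w) (hpos : ∀ ω, 0 < w ω) {ε : ℝ}
    (hε : 0 < ε) : ∃ R : ℝ, 0 < R ∧ ∃ q : P3, ∀ ω : S2, 0 < ev q ω ∧
      |R * ev (T q) ω - w ω * ev q ω| ≤ ε * ev q ω := by
  obtain ⟨ω₁⟩ : Nonempty S2 := ⟨⟨EuclideanSpace.single 0 1, by simp⟩⟩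
  obtain ⟨a, ha, ha'⟩ : ∃ a : ℝ, 0 < a ∧ ∀ ω, a ≤ w ω := by
    obtain ⟨ω₀, -, h⟩ := (isCompact_univ (X := S2)).exists_isMinOn ⟨ω₁, trivial⟩ hw.continuousOn
    exact ⟨w ω₀, hpos ω₀, fun ω => h trivial⟩
  obtain ⟨p, hp⟩ : ∃ p : P3, ∀ ω : S2, |ev p ω - w ω| < min (a / 2) (ε / 2) := by
    set Φ : P3 →ₐ[ℝ] C(S2, ℝ) := MvPolynomial.aeval fun i : Fin 3 =>
      (⟨fun ω : S2 => (ω : E3) i, by fun_prop⟩ : C(S2, ℝ)) with hΦ
    have hΦev : ∀ (p : P3) (ω : S2), Φ p ω = ev p ω := by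
      intro p ω
      induction p using MvPolynomial.induction_on with
      | C a => simp [hΦ]
      | add p q hp hq => rw [map_add, ContinuousMap.add_apply, hp, hq, ev_add]
      | mul_X p i hp =>
        rw [map_mul, ContinuousMap.mul_apply, hp, ev_mul]
        simp [hΦ]
    have hsep : Φ.range.SeparatesPoints := by
      intro x y hxy
      have : (x : E3) ≠ y := fun h => hxy (Subtype.ext h)
      obtain ⟨i, hi⟩ : ∃ i, (x : E3) i ≠ (y : E3) i := by
        by_contra hcon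
        push Not at hcon
        exact this (by ext i; exact hcon i)
      refine ⟨_, ⟨Φ (X i), ⟨X i, rfl⟩, rfl⟩, ?_⟩
      show Φ (X i) x ≠ Φ (X i) y
      rw [hΦev, hΦev]
      simpa using hi
    have hdense := ContinuousMap.subalgebra_topologicalClosure_eq_top_of_separatesPoints _ hsep
    have hmem : (⟨w, hw⟩ : C(S2, ℝ)) ∈ Φ.range.topologicalClosure := by
      rw [hdense]; trivial
    have hmem' : (⟨w, hw⟩ : C(S2, ℝ)) ∈ closure (Φ.range : Set C(S2, ℝ)) := hmem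
    obtain ⟨g, ⟨p, rfl⟩, hg⟩ := Metric.mem_closure_iff.1 hmem' (min (a / 2) (ε / 2))
      (lt_min (by positivity) (by positivity))
    refine ⟨p, fun ω => ?_⟩
    have h1 := (ContinuousMap.dist_lt_iff (lt_min (by positivity) (by positivity))).1 hg ω
    rw [Real.dist_eq, abs_sub_comm] at h1
    simpa [hΦev] using h1
  have hppos : ∀ ω : S2, 0 < ev p ω := by
    intro ω
    have h1 := (hp ω).trans_le (min_le_left _ _)
    have h2 := ha' ω
    rw [abs_lt] at h1
    linarith [h1.1]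
  obtain ⟨W, hW⟩ : ∃ W : ℝ, ∀ ω : S2, ev p ω ≤ W := by
    obtain ⟨W, hW⟩ := (isCompact_univ (X := S2)).bddAbove_image (continuous_evS p).continuousOn
    exact ⟨W, fun ω => hW ⟨ω, trivial, rfl⟩⟩
  have hW0 : 0 < W := (hppos ω₁).trans_le (hW ω₁)
  obtain ⟨m₀, hm₀, hrat⟩ := exists_ratio hppos
  obtain ⟨n, R, hR, hn⟩ := hrat (ε * m₀ / (2 * W)) (by positivity)
  refine ⟨R, hm₀.trans_le hR, it p (n + 1), fun ω => ⟨it_pos hppos _ ω, ?_⟩⟩
  obtain ⟨h1, h2⟩ := hn ω
  have hq := it_pos hppos (n + 1) ω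
  have hq0 := it_pos hppos n ω
  rw [T_it, ev_mul]
  have e1 : R * (ev p ω * ev (it p n) ω) - w ω * ev (it p (n + 1)) ω
      = ev p ω * (R * ev (it p n) ω - ev (it p (n + 1)) ω)
        + (ev p ω - w ω) * ev (it p (n + 1)) ω := by ring
  rw [e1]
  refine (abs_add_le _ _).trans ?_
  rw [abs_mul, abs_mul, abs_of_pos (hppos ω), abs_of_pos hq]
  have e2 : ev p ω * |R * ev (it p n) ω - ev (it p (n + 1)) ω|
      ≤ W * (ε * m₀ / (2 * W) * ev (it p n) ω) :=
    mul_le_mul (hW ω) h2 (abs_nonneg _) hW0.le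
  have e3 : W * (ε * m₀ / (2 * W) * ev (it p n) ω) = ε / 2 * (m₀ * ev (it p n) ω) := by
    field_simp
  have e4 : |ev p ω - w ω| * ev (it p (n + 1)) ω ≤ ε / 2 * ev (it p (n + 1)) ω :=
    mul_le_mul_of_nonneg_right ((hp ω).le.trans (min_le_right _ _)) hq.le
  have e5 : ε / 2 * (m₀ * ev (it p n) ω) ≤ ε / 2 * ev (it p (n + 1)) ω :=
    mul_le_mul_of_nonneg_left h1 (by positivity)
  linarith

end Pool.Agent.Lib_helper58.Ground
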