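import Pool.Agent.PenroseSph.SphereDiv

/-! Polynomials on the unit sphere of three-space: the operator one minus the Laplacian, its
surjectivity and the Green identity. -/

open MeasureTheory Filter Topology MvPolynomial

namespace Pool.Agent.Lib_helper58.Ground

open Pool.Agent.PenroseSph

/-- Real polynomials in three variables. -/
abbrev P3 := MvPolynomial (Fin 3) ℝ

/-- The value of a polynomial at a point. -/
noncomputable def ev (p : P3) (x : E3) : ℝ := MvPolynomial.eval (fun i => x i) p

@[simp] theorem ev_add (p q : P3) (x : E3) : ev (p + q) x = ev p x + ev q x := by simp [ev]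
@[simp] theorem ev_sub (p q : P3) (x : E3) : ev (p - q) x = ev p x - ev q x := by simp [ev]
@[simp] theorem ev_mul (p q : P3) (x : E3) : ev (p * q) x = ev p x * ev q x := by simp [ev]
@[simp] theorem ev_neg (p : P3) (x : E3) : ev (-p) x = -ev p x := by simp [ev]
@[simp] theorem ev_zero (x : E3) : ev 0 x = 0 := by simp [ev]
@[simp] theorem ev_one (x : E3) : ev 1 x = 1 := by simp [ev]
@[simp] theorem ev_C (c : ℝ) (x : E3) : ev (C c) x = c := by simp [ev]
@[simp] theorem ev_smul (c : ℝ) (p : P3) (x : E3) : ev (c • p) x = c * ev p x := by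
  simp [ev, smul_eval]
@[simp] theorem ev_X (i : Fin 3) (x : E3) : ev (X i) x = x i := by simp [ev]
@[simp] theorem ev_pow (p : P3) (n : ℕ) (x : E3) : ev (p ^ n) x = ev p x ^ n := by simp [ev]
@[simp] theorem ev_sum {ι : Type*} (s : Finset ι) (f : ι → P3) (x : E3) :
    ev (∑ i ∈ s, f i) x = ∑ i ∈ s, ev (f i) x := by simp [ev]

theorem contDiff_ev (p : P3) {n : WithTop ℕ∞} : ContDiff ℝ n (ev p) := by
  induction p using MvPolynomial.induction_on with
  | C a =>
    have : ev (C a) = fun _ => a := by funext x; simp
    rw [this]; exact contDiff_const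
  | add p q hp hq =>
    have : ev (p + q) = fun x => ev p x + ev q x := by funext x; simp
    rw [this]; exact hp.add hq
  | mul_X p i hp =>
    have : ev (p * X i) = fun x => ev p x * x i := by funext x; simp
    rw [this]
    refine hp.mul ?_
    have h1 : ContDiff ℝ n (fun x : E3 => x i) := by fun_prop
    exact h1

theorem differentiable_ev (p : P3) : Differentiable ℝ (ev p) :=
  (contDiff_ev p (n := 1)).differentiable (by norm_num)

theorem continuous_ev (p : P3) : Continuous (ev p) := (contDiff_ev p (n := 1)).continuous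

theorem pd_ev (p : P3) (i : Fin 3) (x : E3) : pd i (ev p) x = ev (pderiv i p) x := by
  induction p using MvPolynomial.induction_on with
  | C a =>
    have : ev (C a) = fun _ => a := by funext x; simp
    rw [this, pd_const]; simp
  | add p q hp hq =>
    have : ev (p + q) = fun x => ev p x + ev q x := by funext x; simp
    rw [this, pd_add (differentiable_ev p x) (differentiable_ev q x), hp, hq]; simp
  | mul_X p j hp =>
    have : ev (p * X j) = fun x => ev p x * ev (X j) x := by funext x; simp
    rw [this, pd_mul (differentiable_ev p x) (differentiable_ev _ x), hp]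
    have h2 : pd i (ev (X j : P3)) x = ev (pderiv i (X j : P3)) x := by
      have h3 : ev (X j : P3) = fun x : E3 => x j := by funext x; simp
      rw [h3, pderiv_X]
      unfold pd
      have h4 : HasFDerivAt (fun x : E3 => x j) (EuclideanSpace.proj j : E3 →L[ℝ] ℝ) x :=
        (EuclideanSpace.proj j : E3 →L[ℝ] ℝ).hasFDerivAt
      rw [h4.fderiv]
      by_cases hij : i = j
      · subst hij; simp
      · simp [Ne.symm hij]
    rw [h2, Derivation.leibniz]
    simp

/-- The Euler operator. -/
noncomputable def euler : P3 →ₗ[ℝ] P3 := ∑ i, (LinearMap.mulLeft ℝ (X i)) ∘ₗ (pderiv i : Derivation ℝ P3 P3).toLinearMap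

/-- The Euclidean Laplacian. -/
noncomputable def lap : P3 →ₗ[ℝ] P3 :=
  ∑ i, (pderiv i : Derivation ℝ P3 P3).toLinearMap ∘ₗ (pderiv i : Derivation ℝ P3 P3).toLinearMap

/-- One minus the Laplacian of the unit sphere, on polynomials. -/
noncomputable def T : P3 →ₗ[ℝ] P3 := LinearMap.id + euler ∘ₗ euler + euler - lap

theorem euler_apply (p : P3) : euler p = ∑ i, X i * pderiv i p := by
  simp [euler]

theorem lap_apply (p : P3) : lap p = ∑ i, pderiv i (pderiv i p) := by
  simp [lap]

theorem T_apply (p : P3) : T p = p + euler (euler p) + euler p - lap p := by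
  simp [T]


theorem lap_isHomogeneous {p : P3} {n : ℕ} (h : p.IsHomogeneous n) :
    (lap p).IsHomogeneous (n - 1 - 1) := by
  rw [lap_apply]
  exact IsHomogeneous.sum _ _ _ fun i _ => h.pderiv.pderiv

theorem euler_of_isHomogeneous {p : P3} {n : ℕ} (h : p.IsHomogeneous n) :
    euler p = (n : ℝ) • p := by
  rw [euler_apply, h.sum_X_mul_pderiv]
  simp [← Nat.cast_smul_eq_nsmul ℝ]

theorem T_of_isHomogeneous {p : P3} {n : ℕ} (h : p.IsHomogeneous n) :
    T p = ((n : ℝ) ^ 2 + n + 1) • p - lap p := by
  rw [T_apply, euler_of_isHomogeneous h, map_smul, euler_of_isHomogeneous h]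
  module

theorem exists_T_eq_of_isHomogeneous : ∀ (n : ℕ) (p : P3), p.IsHomogeneous n → ∃ q, T q = p := by
  intro n
  induction n using Nat.strong_induction_on with
  | _ n ih =>
    intro p hp
    have hn : ((n : ℝ) ^ 2 + n + 1) ≠ 0 := by positivity
    rcases Nat.eq_zero_or_pos n with h0 | h0
    · refine ⟨p, ?_⟩
      rw [T_of_isHomogeneous hp]
      subst h0
      have h1 : p = C (coeff 0 p) := (totalDegree_eq_zero_iff_eq_C).1
        (Nat.le_zero.1 hp.totalDegree_le)
      have h2 : lap p = 0 := by
        rw [lap_apply, h1]; simp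
      rw [h2]; simp
    · obtain ⟨q, hq⟩ := ih (n - 1 - 1) (by omega) (lap p) (lap_isHomogeneous hp)
      refine ⟨((n : ℝ) ^ 2 + n + 1)⁻¹ • (p + q), ?_⟩
      rw [map_smul, map_add, hq, T_of_isHomogeneous hp]
      rw [sub_add_cancel, smul_smul, inv_mul_cancel₀ hn, one_smul]

theorem T_surjective (p : P3) : ∃ q, T q = p := by
  choose q hq using fun n => exists_T_eq_of_isHomogeneous n (homogeneousComponent n p)
    (homogeneousComponent_isHomogeneous n p)
  refine ⟨∑ i ∈ Finset.range (p.totalDegree + 1), q i, ?_⟩
  rw [map_sum, Finset.sum_congr rfl fun i _ => hq i, sum_homogeneousComponent]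

@[simp] theorem T_one : T (1 : P3) = 1 := by
  simp [T_apply, euler_apply, lap_apply]

/-- The Dirichlet form of one minus the Laplacian. -/
noncomputable def B (u v : P3) : P3 :=
  u * v + ∑ i, pderiv i u * pderiv i v - euler u * euler v

theorem B_comm (u v : P3) : B u v = B v u := by
  unfold B
  rw [mul_comm u v, mul_comm (euler u)]
  congr 2
  exact Finset.sum_congr rfl fun i _ => mul_comm _ _

/-- The squared norm. -/
noncomputable def r2 : P3 := ∑ i, X i ^ 2

theorem ev_r2 (x : E3) : ev r2 x = ‖x‖ ^ 2 := by
  simp [r2, EuclideanSpace.norm_sq_eq]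

theorem div_field (u v : P3) :
    ∑ i, pderiv i (u * (pderiv i v * r2 - X i * euler v))
      = (∑ i, pderiv i u * pderiv i v) * r2 - euler u * euler v
        + u * (lap v * r2 - euler v - euler (euler v)) := by
  simp only [euler_apply, lap_apply, r2, Fin.sum_univ_three, map_add, map_sub,
    Derivation.leibniz, Derivation.leibniz_pow, pderiv_X, smul_eq_mul]
  simp
  ring

theorem integral_mul_T (u v : P3) :
    ∫ ω : Metric.sphere (0 : E3) 1, ev u ω * ev (T v) ω ∂sph
      = ∫ ω : Metric.sphere (0 : E3) 1, ev (B u v) ω ∂sph := by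
  set b : Fin 3 → E3 → ℝ := fun i => ev (u * (pderiv i v * r2 - X i * euler v)) with hb
  have h1 := integral_sphere_div_eq_zero (ρ₁ := 0) le_rfl (b := b)
    (fun i => (contDiff_ev _).contDiffOn) ?_ (ρ := 1) one_pos
  · have h2 : ∀ ω : Metric.sphere (0 : E3) 1, ∑ i, pd i (b i) ((1 : ℝ) • (ω : E3))
        = ev (B u v) ω - ev u ω * ev (T v) ω := by
      intro ω
      rw [one_smul]
      have h3 : ∑ i, pd i (b i) (ω : E3)
          = ev (∑ i, pderiv i (u * (pderiv i v * r2 - X i * euler v))) ω := by
        rw [ev_sum]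
        exact Finset.sum_congr rfl fun i _ => pd_ev _ _ _
      rw [h3, div_field, B, T_apply]
      have h4 : ‖(ω : E3)‖ = 1 := norm_eq_of_mem_sphere ω
      simp only [ev_add, ev_sub, ev_mul, ev_r2, h4]
      ring
    simp only [h2] at h1
    rw [integral_sub] at h1
    · linarith
    · exact (((continuous_ev _).comp continuous_subtype_val).continuousOn.integrableOn_compact
        isCompact_univ).integrable_of_forall_notMem_eq_zero (by simp)
    · exact ((((continuous_ev u).comp continuous_subtype_val).mul
        ((continuous_ev (T v)).comp continuous_subtype_val)).continuousOn.integrableOn_compact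
        isCompact_univ).integrable_of_forall_notMem_eq_zero (by simp)
  · intro x hx
    have h5 : ∑ i, (x i / ‖x‖) * b i x = ‖x‖⁻¹ * ∑ i, x i * b i x := by
      rw [Finset.mul_sum]
      exact Finset.sum_congr rfl fun i _ => by ring
    rw [h5]
    have h6 : ∑ i, x i * b i x = ev (∑ i, X i * (u * (pderiv i v * r2 - X i * euler v))) x := by
      simp [hb]
    have h7 : ∑ i, X i * (u * (pderiv i v * r2 - X i * euler v)) = (0 : P3) := by
      simp only [euler_apply, r2, Fin.sum_univ_three]
      ring
    rw [h6, h7]
    simp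

/-- The Green identity. -/
theorem green (u v : P3) :
    ∫ ω : Metric.sphere (0 : E3) 1, ev u ω * ev (T v) ω ∂sph
      = ∫ ω : Metric.sphere (0 : E3) 1, ev (T u) ω * ev v ω ∂sph := by
  rw [integral_mul_T, B_comm, ← integral_mul_T]
  exact integral_congr_ae (Eventually.of_forall fun ω => mul_comm _ _)

end Pool.Agent.Lib_helper58.Ground
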