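import Pool.Agent.Lib_helper58.Ground.Green

/-! The representation formula and the two bounds for one minus the Laplacian of the sphere. -/

open MeasureTheory Filter Topology MvPolynomial

namespace Pool.Agent.Lib_helper58.Ground

open Pool.Agent.PenroseSph

/-- The unit sphere. -/
abbrev S2 := Metric.sphere (0 : E3) 1

theorem continuous_evS (p : P3) : Continuous fun ω : S2 => ev p ω :=
  (continuous_ev p).comp continuous_subtype_val

theorem integrable_of_continuous {f : S2 → ℝ} (hf : Continuous f) : Integrable f sph :=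
  (hf.continuousOn.integrableOn_compact isCompact_univ).integrable_of_forall_notMem_eq_zero
    (by simp)

theorem ev_ell (x0 y : E3) : ev (ell x0) y = (1 + inner ℝ x0 y) / 2 := by
  simp [ell, PiLp.inner_apply, Fin.sum_univ_three]
  ring

theorem ev_ell_self {x0 : E3} (hx : ‖x0‖ = 1) : ev (ell x0) x0 = 1 := by
  rw [ev_ell, real_inner_self_eq_norm_sq, hx]; norm_num

theorem ev_ell_eq {x0 y : E3} (hx : ‖x0‖ = 1) (hy : ‖y‖ = 1) :
    ev (ell x0) y = 1 - ‖x0 - y‖ ^ 2 / 4 := by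
  rw [ev_ell, norm_sub_sq_real, hx, hy]; ring

theorem ev_ell_nonneg {x0 y : E3} (hx : ‖x0‖ = 1) (hy : ‖y‖ = 1) : 0 ≤ ev (ell x0) y := by
  rw [ev_ell]
  have := abs_real_inner_le_norm x0 y
  rw [hx, hy] at this
  have := neg_abs_le (inner ℝ x0 y)
  linarith

theorem integral_ell_pow {x0 : E3} (hx : ‖x0‖ = 1) (n : ℕ) :
    ∫ ω : S2, ev (ell x0) ω ^ n ∂sph = 4 * Real.pi / (n + 1) := by
  induction n with
  | zero => simp [← sph_univ]
  | succ n ih =>
    have h1 := green 1 (ell x0 ^ (n + 1))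
    rw [T_ell_pow hx, T_one] at h1
    have h3 : ((n : P3)) = C (n : ℝ) := by simp
    simp only [ev_sub, ev_mul, ev_one, one_mul, ev_pow, ev_add, h3, ev_C] at h1
    rw [integral_sub, integral_const_mul, integral_const_mul, ih] at h1
    · push_cast
      have hn : ((n : ℝ) + 1) ≠ 0 := by positivity
      have hn2 : ((n : ℝ) + 1 + 1) ≠ 0 := by positivity
      have h4 : ((n : ℝ) + 1) * (n + 1 + 1) * ∫ ω : S2, ev (ell x0) ω ^ (n + 1) ∂sph
          = ((n : ℝ) + 1) ^ 2 * (4 * Real.pi / (n + 1)) := by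
        linarith
      field_simp at h4 ⊢
      linarith
    · exact integrable_of_continuous (continuous_const.mul ((continuous_evS _).pow _))
    · exact integrable_of_continuous (continuous_const.mul ((continuous_evS _).pow _))

/-- Concentration at the pole. -/
theorem tendsto_peak {x0 : E3} (hx : ‖x0‖ = 1) (u : P3) :
    Tendsto (fun n : ℕ => (((n : ℝ) + 1) / (4 * Real.pi)) * ∫ ω : S2, ev (ell x0) ω ^ n * ev u ω ∂sph)
      atTop (𝓝 (ev u x0)) := by
  have hx' : x0 ∈ Metric.sphere (0 : E3) 1 := by simp [hx]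
  have h1 := tendsto_setIntegral_pow_smul_of_unique_maximum_of_isCompact_of_continuousOn
    (μ := sph) (s := Set.univ) (c := fun ω : S2 => ev (ell x0) ω) (g := fun ω : S2 => ev u ω)
    (x₀ := ⟨x0, hx'⟩) isCompact_univ (continuous_evS _).continuousOn ?_ ?_ ?_ (by simp)
    (continuous_evS _).continuousOn
  · simp only [Measure.restrict_univ, smul_eq_mul] at h1
    refine h1.congr fun n => ?_
    rw [integral_ell_pow hx, inv_div]
  · intro y _ hy
    simp only
    rw [ev_ell_self hx, ev_ell_eq hx (norm_eq_of_mem_sphere y)]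
    have h2 : x0 - (y : E3) ≠ 0 := by
      intro h
      exact hy (Subtype.ext (sub_eq_zero.1 h).symm)
    have := norm_pos_iff.2 h2
    have : 0 < ‖x0 - (y : E3)‖ ^ 2 := by positivity
    linarith
  · intro y _
    exact ev_ell_nonneg hx (norm_eq_of_mem_sphere y)
  · simp only
    rw [ev_ell_self hx]; norm_num

theorem ev_gf (x0 y : E3) (n : ℕ) :
    ev (gf x0 n) y = ∑ k ∈ Finset.range (n + 1), cf k * ev (ell x0) y ^ k := by
  simp [gf]

theorem one_le_gf {x0 y : E3} (hx : ‖x0‖ = 1) (hy : ‖y‖ = 1) (n : ℕ) : 1 ≤ ev (gf x0 n) y := by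
  rw [ev_gf, Finset.sum_range_succ']
  have h0 : 0 ≤ ∑ k ∈ Finset.range n, cf (k + 1) * ev (ell x0) y ^ (k + 1) :=
    Finset.sum_nonneg fun k _ => mul_nonneg (cf_pos _).le (pow_nonneg (ev_ell_nonneg hx hy) _)
  simp only [pow_zero, mul_one, cf]
  simp only [cf] at h0
  linarith

/-- The normalising factor. -/
noncomputable def dn (n : ℕ) : ℝ := cf (n + 1) * ((n : ℝ) + 1)

theorem tendsto_rep {x0 : E3} (hx : ‖x0‖ = 1) (u : P3) :
    Tendsto (fun n : ℕ => (4 * Real.pi * dn n)⁻¹ * ∫ ω : S2, ev (gf x0 n) ω * ev (T u) ω ∂sph)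
      atTop (𝓝 (ev u x0)) := by
  refine (tendsto_peak hx u).congr fun n => ?_
  rw [green, T_gf hx]
  have h0 : ∀ ω : S2, ev (C (cf (n + 1) * ((n : ℝ) + 1) ^ 2) * ell x0 ^ n) ω * ev u ω
      = (cf (n + 1) * ((n : ℝ) + 1) ^ 2) * (ev (ell x0) ω ^ n * ev u ω) := by
    intro ω
    rw [ev_mul, ev_C, ev_pow, mul_assoc]
  simp only [h0]
  rw [integral_const_mul]
  generalize ∫ ω : S2, ev (ell x0) ω ^ n * ev u ω ∂sph = I
  have h1 : dn n ≠ 0 := by
    have := one_le_dk n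
    unfold dn; linarith
  unfold dn at h1 ⊢
  have h2 : ((n : ℝ) + 1) ≠ 0 := by positivity
  have h3 : Real.pi ≠ 0 := Real.pi_ne_zero
  have h4 : cf (n + 1) ≠ 0 := (cf_pos _).ne'
  field_simp

/-- Lower bound. -/
theorem lower_bound {u : P3} (hu : ∀ ω : S2, 0 ≤ ev (T u) ω) (ω₀ : S2) :
    (16 * Real.pi)⁻¹ * ∫ ω : S2, ev (T u) ω ∂sph ≤ ev u ω₀ := by
  have hx : ‖(ω₀ : E3)‖ = 1 := norm_eq_of_mem_sphere ω₀
  refine ge_of_tendsto' (tendsto_rep hx u) fun n => ?_
  have h1 : ∫ ω : S2, ev (T u) ω ∂sph ≤ ∫ ω : S2, ev (gf ω₀ n) ω * ev (T u) ω ∂sph := by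
    refine integral_mono (integrable_of_continuous (continuous_evS _))
      (integrable_of_continuous ((continuous_evS _).mul (continuous_evS _))) fun ω => ?_
    have := one_le_gf hx (norm_eq_of_mem_sphere ω) n
    have h2 := hu ω
    simp only
    nlinarith
  have h0 : 0 ≤ ∫ ω : S2, ev (T u) ω ∂sph := integral_nonneg hu
  have hd : dn n ≤ 4 := dk_le_four n
  have hd1 : 1 ≤ dn n := one_le_dk n
  have hpi := Real.pi_pos
  refine mul_le_mul ?_ h1 h0 (by positivity)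
  rw [inv_le_inv₀ (by positivity) (by positivity)]
  nlinarith

/-- Upper bound in terms of the mean square norm. -/
theorem abs_le_of_gf {K : ℝ} (hK : ∀ (ω₀ : S2) (n : ℕ), ∫ ω : S2, ev (gf ω₀ n) ω ^ 2 ∂sph ≤ K)
    (u : P3) (ω₀ : S2) : ev u ω₀ ^ 2 ≤ K * ∫ ω : S2, ev (T u) ω ^ 2 ∂sph := by
  have hx : ‖(ω₀ : E3)‖ = 1 := norm_eq_of_mem_sphere ω₀
  refine le_of_tendsto' ((tendsto_rep hx u).pow 2) fun n => ?_
  have hd1 : 1 ≤ dn n := one_le_dk n
  have hpi := Real.pi_gt_three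
  have h1 : (4 * Real.pi * dn n)⁻¹ ^ 2 ≤ 1 := by
    have : 1 ≤ 4 * Real.pi * dn n := by nlinarith
    exact pow_le_one₀ (by positivity) (inv_le_one_of_one_le₀ this)
  have h2 : (∫ ω : S2, ev (gf ω₀ n) ω * ev (T u) ω ∂sph) ^ 2
      ≤ (∫ ω : S2, ev (gf ω₀ n) ω ^ 2 ∂sph) * ∫ ω : S2, ev (T u) ω ^ 2 ∂sph := by
    set a := ∫ ω : S2, ev (gf ω₀ n) ω ^ 2 ∂sph
    set b := ∫ ω : S2, ev (gf ω₀ n) ω * ev (T u) ω ∂sph
    set c := ∫ ω : S2, ev (T u) ω ^ 2 ∂sph
    have hq : ∀ t : ℝ, 0 ≤ a * (t * t) + (2 * b) * t + c := by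
      intro t
      have h3 : a * (t * t) + (2 * b) * t + c
          = ∫ ω : S2, (t * ev (gf ω₀ n) ω + ev (T u) ω) ^ 2 ∂sph := by
        have h4 : ∀ ω : S2, (t * ev (gf ω₀ n) ω + ev (T u) ω) ^ 2
            = (t * t) * ev (gf ω₀ n) ω ^ 2 + (2 * t) * (ev (gf ω₀ n) ω * ev (T u) ω)
              + ev (T u) ω ^ 2 := fun ω => by ring
        simp only [h4]
        have i1 : Integrable (fun ω : S2 => (t * t) * ev (gf ω₀ n) ω ^ 2) sph :=
          integrable_of_continuous (continuous_const.mul ((continuous_evS _).pow 2))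
        have i2 : Integrable (fun ω : S2 => (2 * t) * (ev (gf ω₀ n) ω * ev (T u) ω)) sph :=
          integrable_of_continuous (continuous_const.mul ((continuous_evS _).mul (continuous_evS _)))
        have i3 : Integrable (fun ω : S2 => ev (T u) ω ^ 2) sph :=
          integrable_of_continuous ((continuous_evS _).pow 2)
        have i12 : Integrable (fun ω : S2 => (t * t) * ev (gf ω₀ n) ω ^ 2
            + (2 * t) * (ev (gf ω₀ n) ω * ev (T u) ω)) sph := i1.add i2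
        rw [integral_add i12 i3, integral_add i1 i2, integral_const_mul,
          integral_const_mul]
        ring
      rw [h3]
      exact integral_nonneg fun ω => by positivity
    have := discrim_le_zero hq
    unfold discrim at this
    nlinarith
  have hc : 0 ≤ ∫ ω : S2, ev (T u) ω ^ 2 ∂sph := integral_nonneg fun ω => by positivity
  rw [mul_pow]
  calc (4 * Real.pi * dn n)⁻¹ ^ 2 * (∫ ω : S2, ev (gf ω₀ n) ω * ev (T u) ω ∂sph) ^ 2
      ≤ 1 * (∫ ω : S2, ev (gf ω₀ n) ω * ev (T u) ω ∂sph) ^ 2 :=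
        mul_le_mul_of_nonneg_right h1 (by positivity)
    _ ≤ (∫ ω : S2, ev (gf ω₀ n) ω ^ 2 ∂sph) * ∫ ω : S2, ev (T u) ω ^ 2 ∂sph := by
        rw [one_mul]; exact h2
    _ ≤ K * ∫ ω : S2, ev (T u) ω ^ 2 ∂sph := mul_le_mul_of_nonneg_right (hK ω₀ n) hc

theorem summable_aux : Summable fun k : ℕ => 1 / ((k : ℝ) + 1) ^ (3 / 2 : ℝ) := by
  have h := (Real.summable_one_div_nat_rpow (p := 3 / 2)).2 (by norm_num)
  have h1 := (summable_nat_add_iff 1).2 h
  simpa using h1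

/-- The uniform mean square bound of the Green polynomials. -/
theorem exists_gf_bound : ∃ K : ℝ, 0 < K ∧ ∀ (ω₀ : S2) (n : ℕ),
    ∫ ω : S2, ev (gf ω₀ n) ω ^ 2 ∂sph ≤ K := by
  set f : ℕ → ℝ := fun k => 1 / ((k : ℝ) + 1) ^ (3 / 2 : ℝ) with hf
  have hf0 : ∀ k, 0 ≤ f k := fun k => by positivity
  set Sg := tsum f with hS
  refine ⟨4 * Real.pi * 64 * Sg ^ 2 + 1, by positivity, fun ω₀ n => ?_⟩
  have hx : ‖(ω₀ : E3)‖ = 1 := norm_eq_of_mem_sphere ω₀
  have h1 : ∀ ω : S2, ev (gf ω₀ n) ω ^ 2 = ∑ j ∈ Finset.range (n + 1), ∑ k ∈ Finset.range (n + 1),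
      (cf j * cf k) * ev (ell ω₀) ω ^ (j + k) := by
    intro ω
    rw [ev_gf, pow_two, Finset.sum_mul_sum]
    exact Finset.sum_congr rfl fun j _ => Finset.sum_congr rfl fun k _ => by rw [pow_add]; ring
  simp only [h1]
  have hi : ∀ j k : ℕ, Integrable (fun ω : S2 => (cf j * cf k) * ev (ell ω₀) ω ^ (j + k)) sph :=
    fun j k => integrable_of_continuous (continuous_const.mul ((continuous_evS _).pow _))
  rw [integral_finsetSum _ fun j _ => integrable_finset_sum _ fun k _ => hi j k]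
  have h2 : ∀ j ∈ Finset.range (n + 1), ∫ ω : S2, ∑ k ∈ Finset.range (n + 1),
      (cf j * cf k) * ev (ell ω₀) ω ^ (j + k) ∂sph
      ≤ ∑ k ∈ Finset.range (n + 1), 4 * Real.pi * 64 * (f j * f k) := by
    intro j _
    rw [integral_finsetSum _ fun k _ => hi j k]
    refine Finset.sum_le_sum fun k _ => ?_
    rw [integral_const_mul, integral_ell_pow hx]
    have hj : (0 : ℝ) < (j : ℝ) + 1 := by positivity
    have hk : (0 : ℝ) < (k : ℝ) + 1 := by positivity
    have h3 : cf j * cf k ≤ (8 / ((j : ℝ) + 1)) * (8 / ((k : ℝ) + 1)) :=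
      mul_le_mul (cf_le j) (cf_le k) (cf_pos k).le (by positivity)
    have h4 : 4 * Real.pi / (((j + k : ℕ) : ℝ) + 1)
        ≤ 4 * Real.pi / (((j : ℝ) + 1) ^ (1 / 2 : ℝ) * ((k : ℝ) + 1) ^ (1 / 2 : ℝ)) := by
      refine div_le_div_of_nonneg_left (by positivity) (by positivity) ?_
      rw [← Real.mul_rpow hj.le hk.le, ← Real.sqrt_eq_rpow]
      refine Real.sqrt_le_iff.2 ⟨by positivity, ?_⟩
      push_cast
      have hj0 : (0 : ℝ) ≤ j := Nat.cast_nonneg j
      have hk0 : (0 : ℝ) ≤ k := Nat.cast_nonneg k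
      nlinarith [mul_nonneg hj0 hk0, mul_nonneg hj0 hj0, mul_nonneg hk0 hk0]
    have h5 : cf j * cf k * (4 * Real.pi / (((j + k : ℕ) : ℝ) + 1))
        ≤ (8 / ((j : ℝ) + 1)) * (8 / ((k : ℝ) + 1))
          * (4 * Real.pi / (((j : ℝ) + 1) ^ (1 / 2 : ℝ) * ((k : ℝ) + 1) ^ (1 / 2 : ℝ))) :=
      mul_le_mul h3 h4 (by positivity) (by positivity)
    refine h5.trans (le_of_eq ?_)
    have h6 : ∀ y : ℝ, 0 < y → y ^ (3 / 2 : ℝ) = y * y ^ (1 / 2 : ℝ) := by
      intro y hy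
      rw [show (3 / 2 : ℝ) = 1 + 1 / 2 by norm_num, Real.rpow_add hy, Real.rpow_one]
    simp only [hf]
    rw [h6 _ hj, h6 _ hk]
    have h7 : ((j : ℝ) + 1) ^ (1 / 2 : ℝ) ≠ 0 := by positivity
    have h8 : ((k : ℝ) + 1) ^ (1 / 2 : ℝ) ≠ 0 := by positivity
    field_simp
    ring
  refine (Finset.sum_le_sum h2).trans ?_
  have h9 : ∑ j ∈ Finset.range (n + 1), ∑ k ∈ Finset.range (n + 1),
      4 * Real.pi * 64 * (f j * f k)
      = 4 * Real.pi * 64 * (∑ j ∈ Finset.range (n + 1), f j) ^ 2 := by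
    rw [pow_two, Finset.sum_mul_sum, Finset.mul_sum]
    exact Finset.sum_congr rfl fun j _ => by rw [Finset.mul_sum]
  rw [h9]
  have h10 : ∑ j ∈ Finset.range (n + 1), f j ≤ Sg :=
    summable_aux.sum_le_tsum _ fun k _ => hf0 k
  have h11 : 0 ≤ ∑ j ∈ Finset.range (n + 1), f j := Finset.sum_nonneg fun k _ => hf0 k
  have h12 : (∑ j ∈ Finset.range (n + 1), f j) ^ 2 ≤ Sg ^ 2 := pow_le_pow_left₀ h11 h10 2
  have := Real.pi_pos
  nlinarith

end Pool.Agent.Lib_helper58.Ground
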